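import Mathlib

/-!
# A kernel of restriction from the Drinfeld double that is not compactly generated

In characteristic two let `H = k[e]/(e²)` with `e` primitive. Its Drinfeld double is
`D = k[x,y]/(x²,y²)` and the inclusion sends `e` to `x`. The `D`-module `k[e]/(e²) ⊗ k(t)` on which
`x` acts as `e` and `y` as `e ⊗ t` is projective over `H`, but is not in the localizing subcategory
generated by the finite-dimensional `D`-modules that are projective over `H`: the class of modules
`X` for which the differential `β ↦ t β(x·) + β(y·)` on `Hom_k(X, k(t))` is exact is localizing,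
contains those finite-dimensional modules, and does not contain this one.
-/

open TensorProduct CategoryTheory
open scoped DirectSum

namespace Pool.Agent.Results.MP_ae772b_al.KernelNotCompGen

universe u

/-- `D`, together with an algebra map `i : H → D` and a linear map `j : H^* → D`, is the Drinfeld
double of `H`: `j` is an algebra map for the convolution product of `H^*` (whose unit is the
counit), `f ⊗ h ↦ j f * i h` is a linear bijection `H^* ⊗ H → D`, and the two factors satisfy
the cross relation of the double,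
`∑ i(h₁) * j(f(h₂ · -)) = ∑ j(f(- · h₁)) * i(h₂)`
(equivalent to `i(h) * j(f) = ∑ j(f(S⁻¹(h₃) · - · h₁)) * i(h₂)`). -/
structure IsDrinfeldDouble (k H D : Type u) [Field k] [Ring H] [HopfAlgebra k H]
    [Ring D] [Algebra k D] (i : H →ₐ[k] D) (j : Module.Dual k H →ₗ[k] D) : Prop where
  /-- `j` preserves the unit -/
  j_counit : j Coalgebra.counit = 1
  /-- `j` turns convolution into multiplication -/
  j_conv : ∀ f g : Module.Dual k H,
    j (LinearMap.mul' k k ∘ₗ TensorProduct.map f g ∘ₗ Coalgebra.comul) = j f * j g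
  /-- `D = H^* ⊗ H` as a vector space -/
  bij : Function.Bijective (LinearMap.mul' k D ∘ₗ TensorProduct.map j i.toLinearMap)
  /-- the cross relation -/
  cross : ∀ (f : Module.Dual k H) (h : H) (r : Coalgebra.Repr k h (H × H)),
    ∑ a ∈ r.index, i (r.left a) * j (f ∘ₗ LinearMap.mulLeft k (r.right a)) =
      ∑ a ∈ r.index, j (f ∘ₗ LinearMap.mulRight k (r.left a)) * i (r.right a)

/-- A localizing subcategory of `StMod(D)`, given as the class of all `D`-modules lying in it:
the class contains the projective modules, is closed under arbitrary direct sums, and whenever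
two terms of a short exact sequence belong to it, so does the third. -/
structure IsLocalizing {D : Type u} [Ring D] (C : ModuleCat.{u} D → Prop) : Prop where
  projective : ∀ P : ModuleCat.{u} D, Module.Projective D P → C P
  directSum : ∀ (ι : Type u) (X : ι → ModuleCat.{u} D), (∀ a, C (X a)) →
    C (ModuleCat.of D (⨁ a, X a))
  third : ∀ S : ShortComplex (ModuleCat.{u} D), S.ShortExact → C S.X₁ → C S.X₂ → C S.X₃
  second : ∀ S : ShortComplex (ModuleCat.{u} D), S.ShortExact → C S.X₁ → C S.X₃ → C S.X₂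
  first : ∀ S : ShortComplex (ModuleCat.{u} D), S.ShortExact → C S.X₂ → C S.X₃ → C S.X₁

/-- `Loc(T)`: the smallest localizing subcategory containing the class `T`. -/
def Loc {D : Type u} [Ring D] (T : ModuleCat.{u} D → Prop) (X : ModuleCat.{u} D) : Prop :=
  ∀ C : ModuleCat.{u} D → Prop, IsLocalizing C → (∀ Y, T Y → C Y) → C X

/-- The kernel `K`: `D`-modules whose restriction along `i : H → D` is projective. -/
def InKernel {k H D : Type u} [Field k] [Ring H] [Algebra k H] [Ring D] [Algebra k D]
    (i : H →ₐ[k] D) (X : ModuleCat.{u} D) : Prop :=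
  Module.Projective H ((ModuleCat.restrictScalars (i : H →+* D)).obj X)

/-- `X` is finite-dimensional over `k`. -/
def IsFinDim (k : Type u) {D : Type u} [Field k] [Ring D] [Algebra k D]
    (X : ModuleCat.{u} D) : Prop :=
  Module.Finite k ((ModuleCat.restrictScalars (algebraMap k D)).obj X)

/-- `K = Loc(K ∩ stmod(D))`. -/
def KernelCompactlyGenerated {k H D : Type u} [Field k] [Ring H] [Algebra k H] [Ring D]
    [Algebra k D] (i : H →ₐ[k] D) : Prop :=
  ∀ X : ModuleCat.{u} D, InKernel i X ↔ Loc (fun Y => InKernel i Y ∧ IsFinDim k Y) X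

/-! ### The Hopf algebra `k[e]/(e²)` in characteristic two -/

section Hopf

variable (k : Type u) [Field k]

/-- The algebra `k[e]/(e²)`. -/
def HH : Type u := DualNumber k

noncomputable instance : CommRing (HH k) := inferInstanceAs (CommRing (DualNumber k))

noncomputable instance : Algebra k (HH k) := inferInstanceAs (Algebra k (DualNumber k))

noncomputable instance : Module.Finite k (HH k) := inferInstanceAs (Module.Finite k (k × k))

/-- The nilpotent generator. -/
def e : HH k := (DualNumber.eps : DualNumber k)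

lemma e_mul_e : e k * e k = 0 := DualNumber.eps_mul_eps

variable {k}

/-- Algebra maps out of `k[e]/(e²)`. -/
noncomputable def lft {B : Type*} [Ring B] [Algebra k B] (b : B) (hb : b * b = 0) :
    HH k →ₐ[k] B :=
  DualNumber.lift (R := k) (A := k) (B := B)
    ⟨(Algebra.ofId k B, b), hb, fun a => (Algebra.commutes a _).symm⟩

lemma lft_e {B : Type*} [Ring B] [Algebra k B] (b : B) (hb : b * b = 0) :
    lft b hb (e k) = b :=
  DualNumber.lift_apply_eps (R := k) (A := k) (B := B)
    ⟨(Algebra.ofId k B, b), hb, fun a => (Algebra.commutes a _).symm⟩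

lemma hom_ext {B : Type*} [Ring B] [Algebra k B] {f g : HH k →ₐ[k] B}
    (h : f (e k) = g (e k)) : f = g :=
  DualNumber.algHom_ext (R := k) (A := B) (f := f) (g := g) h

/-- Coefficient of `1`. -/
noncomputable def c0 : HH k →ₗ[k] k := TrivSqZeroExt.fstHom k k k |>.toLinearMap

/-- Coefficient of `e`. -/
noncomputable def c1 : HH k →ₗ[k] k := TrivSqZeroExt.sndHom k k

lemma c0_one : c0 (1 : HH k) = 1 := TrivSqZeroExt.fst_one (R := k) (M := k)

lemma c1_one : c1 (1 : HH k) = 0 := TrivSqZeroExt.snd_one (R := k) (M := k)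

lemma c0_e : c0 (e k) = 0 := DualNumber.fst_eps (R := k)

lemma c1_e : c1 (e k) = 1 := DualNumber.snd_eps (R := k)

lemma repr_eq' (m : HH k) : m = algebraMap k (HH k) (c0 m) + c1 m • e k := by
  rw [Algebra.algebraMap_eq_smul_one]
  apply TrivSqZeroExt.ext
  · change c0 m = c0 (c0 m • (1 : HH k) + c1 m • e k)
    rw [map_add, map_smul, map_smul, c0_one, c0_e]
    simp
  · change c1 m = c1 (c0 m • (1 : HH k) + c1 m • e k)
    rw [map_add, map_smul, map_smul, c1_one, c1_e]
    simp

lemma sq_zero [CharP k 2] : ((e k) ⊗ₜ[k] (1 : HH k) + 1 ⊗ₜ e k) *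
    (e k ⊗ₜ 1 + 1 ⊗ₜ e k) = 0 := by
  have he := e_mul_e k
  have e2 : (e k) ⊗ₜ[k] (e k) + e k ⊗ₜ e k = 0 := by
    rw [← two_smul k ((e k) ⊗ₜ[k] (e k)),
      (CharTwo.two_eq_zero : (2 : k) = 0), zero_smul]
  simp only [mul_add, add_mul, Algebra.TensorProduct.tmul_mul_tmul, mul_one, one_mul, he,
    TensorProduct.zero_tmul, TensorProduct.tmul_zero, zero_add, add_zero]
  exact e2

variable (k)

/-- The comultiplication `e ↦ e ⊗ 1 + 1 ⊗ e`. -/
noncomputable def cm [CharP k 2] : HH k →ₐ[k] HH k ⊗[k] HH k :=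
  lft (e k ⊗ₜ 1 + 1 ⊗ₜ e k) sq_zero

/-- The counit `e ↦ 0`. -/
noncomputable def cu : HH k →ₐ[k] k :=
  lft 0 (by simp)

lemma cm_e [CharP k 2] : cm k (e k) = e k ⊗ₜ 1 + 1 ⊗ₜ e k := lft_e _ _

lemma cu_e : cu k (e k) = 0 := lft_e _ _

/-- The bialgebra structure. -/
@[instance_reducible]
noncomputable def bi [CharP k 2] : Bialgebra k (HH k) :=
  Bialgebra.ofAlgHom (cm k) (cu k)
    (by
      apply hom_ext
      simp [cm_e, TensorProduct.add_tmul, TensorProduct.tmul_add,
        Algebra.TensorProduct.one_def, add_assoc])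
    (by
      apply hom_ext
      simp [cm_e, cu_e])
    (by
      apply hom_ext
      simp [cm_e, cu_e])

/-- Linear maps out of `k[e]/(e²)` are determined by their values at `1` and `e`. -/
lemma lin_ext {V : Type*} [AddCommGroup V] [Module k V] {f g : HH k →ₗ[k] V}
    (h1 : f 1 = g 1) (h2 : f (e k) = g (e k)) : f = g := by
  ext m
  rw [repr_eq' m, Algebra.algebraMap_eq_smul_one]
  simp [h1, h2]

/-- The Hopf algebra structure, with antipode the identity. -/
@[instance_reducible]
noncomputable def hopf [CharP k 2] : HopfAlgebra k (HH k) :=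
  { bi k with
    antipode := LinearMap.id
    mul_antipode_rTensor_comul := by
      have h2 : e k + e k = 0 := by
        rw [← two_smul k (e k), (CharTwo.two_eq_zero : (2 : k) = 0), zero_smul]
      apply lin_ext
      · change LinearMap.mul' k (HH k) ((LinearMap.id.rTensor (HH k)) (cm k 1)) =
          algebraMap k (HH k) (cu k 1)
        simp [Algebra.TensorProduct.one_def]
      · change LinearMap.mul' k (HH k) ((LinearMap.id.rTensor (HH k)) (cm k (e k))) =
          algebraMap k (HH k) (cu k (e k))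
        simp [cm_e, cu_e, h2]
    mul_antipode_lTensor_comul := by
      have h2 : e k + e k = 0 := by
        rw [← two_smul k (e k), (CharTwo.two_eq_zero : (2 : k) = 0), zero_smul]
      apply lin_ext
      · change LinearMap.mul' k (HH k) ((LinearMap.id.lTensor (HH k)) (cm k 1)) =
          algebraMap k (HH k) (cu k 1)
        simp [Algebra.TensorProduct.one_def]
      · change LinearMap.mul' k (HH k) ((LinearMap.id.lTensor (HH k)) (cm k (e k))) =
          algebraMap k (HH k) (cu k (e k))
        simp [cm_e, cu_e, h2] }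

/-! ### Its Drinfeld double `k[x,y]/(x²,y²)` -/

/-- The double. -/
abbrev DD : Type u := HH k ⊗[k] HH k

/-- The inclusion of `H`, with image generated by `x = e ⊗ 1`. -/
noncomputable def ii : HH k →ₐ[k] DD k := Algebra.TensorProduct.includeLeft

/-- The inclusion of `H^*`. -/
noncomputable def jj : Module.Dual k (HH k) →ₗ[k] DD k where
  toFun f := 1 ⊗ₜ (f 1 • 1 + f (e k) • e k)
  map_add' f g := by
    simp only [LinearMap.add_apply, add_smul, ← TensorProduct.tmul_add]
    congr 1
    abel
  map_smul' c f := by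
    simp only [LinearMap.smul_apply, smul_eq_mul, mul_smul, ← smul_add, TensorProduct.tmul_smul,
      RingHom.id_apply]

lemma jj_apply (f : Module.Dual k (HH k)) : jj k f = 1 ⊗ₜ (f 1 • 1 + f (e k) • e k) := rfl

/-- `H^* ≃ H` sending the dual basis to the basis. -/
noncomputable def phi : Module.Dual k (HH k) ≃ₗ[k] HH k where
  toFun f := f 1 • 1 + f (e k) • e k
  map_add' f g := by
    simp only [LinearMap.add_apply, add_smul]
    abel
  map_smul' c f := by
    simp only [LinearMap.smul_apply, smul_eq_mul, mul_smul, ← smul_add, RingHom.id_apply]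
  invFun m := c0 m • c0 + c1 m • c1
  left_inv f := by
    apply lin_ext
    · simp [c0_one, c1_one, c0_e, c1_e]
    · simp [c0_one, c1_one, c0_e, c1_e]
  right_inv m := by
    conv_rhs => rw [repr_eq' m, Algebra.algebraMap_eq_smul_one]
    simp [c0_one, c1_one, c0_e, c1_e]

attribute [local instance] hopf

lemma comul_eq [CharP k 2] (h : HH k) : (Coalgebra.comul h : HH k ⊗[k] HH k) = cm k h := rfl

lemma counit_eq [CharP k 2] (h : HH k) : (Coalgebra.counit h : k) = cu k h := rfl

theorem isDD [CharP k 2] : IsDrinfeldDouble k (HH k) (DD k) (ii k) (jj k) where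
  j_counit := by
    rw [jj_apply, counit_eq, counit_eq, cu_e, map_one, one_smul, zero_smul, add_zero]
    rfl
  j_conv f g := by
    have h1 : (LinearMap.mul' k k ∘ₗ TensorProduct.map f g ∘ₗ Coalgebra.comul) (1 : HH k) =
        f 1 * g 1 := by
      simp [Algebra.TensorProduct.one_def]
    have h2 : (LinearMap.mul' k k ∘ₗ TensorProduct.map f g ∘ₗ Coalgebra.comul) (e k) =
        f (e k) * g 1 + f 1 * g (e k) := by
      simp [comul_eq, cm_e]
    rw [jj_apply, jj_apply, jj_apply, h1, h2, Algebra.TensorProduct.tmul_mul_tmul]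
    congr 1
    · simp
    · simp only [mul_add, add_mul, smul_mul_smul_comm, mul_one, one_mul, e_mul_e, smul_zero,
        add_zero, add_smul]
      abel
  bij := by
    have hcomp : LinearMap.mul' k (DD k) ∘ₗ TensorProduct.map (jj k) (ii k).toLinearMap =
        (TensorProduct.congr (LinearEquiv.refl k (HH k)) (phi k)).toLinearMap ∘ₗ
          (TensorProduct.comm k (Module.Dual k (HH k)) (HH k)).toLinearMap := by
      apply TensorProduct.ext'
      intro f h
      simp [jj_apply, ii, phi]
    rw [hcomp]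
    exact (TensorProduct.congr (LinearEquiv.refl k (HH k)) (phi k)).bijective.comp
      (TensorProduct.comm k (Module.Dual k (HH k)) (HH k)).bijective
  cross f h r := by
    let B : HH k →ₗ[k] Module.Dual k (HH k) := (LinearMap.mul k (HH k)).compr₂ f
    let Λ : HH k ⊗[k] HH k →ₗ[k] DD k :=
      LinearMap.mul' k (DD k) ∘ₗ TensorProduct.map (ii k).toLinearMap (jj k ∘ₗ B)
    have hB1 : ∀ b, f ∘ₗ LinearMap.mulLeft k b = B b := fun b => rfl
    have hB2 : ∀ b, f ∘ₗ LinearMap.mulRight k b = B b := fun b => by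
      ext m
      simp [B, mul_comm]
    have hΛ : ∀ a b, Λ (a ⊗ₜ b) = ii k a * jj k (B b) := fun a b => by
      simp [Λ]
    have hc : ∀ h : HH k, TensorProduct.comm k (HH k) (HH k) (cm k h) = cm k h := by
      intro h
      have : ((Algebra.TensorProduct.comm k (HH k) (HH k)).toAlgHom.comp (cm k)) = cm k := by
        apply hom_ext
        simp [cm_e, add_comm]
      exact DFunLike.congr_fun this h
    have e1 : ∑ a ∈ r.index, ii k (r.left a) * jj k (f ∘ₗ LinearMap.mulLeft k (r.right a)) =
        Λ (Coalgebra.comul h) := by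
      rw [← r.eq, map_sum]
      exact Finset.sum_congr rfl fun a _ => by rw [hΛ, hB1]
    have e2 : ∑ a ∈ r.index, jj k (f ∘ₗ LinearMap.mulRight k (r.left a)) * ii k (r.right a) =
        Λ (TensorProduct.comm k (HH k) (HH k) (Coalgebra.comul h)) := by
      rw [← r.eq, map_sum, map_sum]
      exact Finset.sum_congr rfl fun a _ => by
        rw [TensorProduct.comm_tmul, hΛ, hB2, mul_comm]
    rw [e1, e2]
    congr 1
    exact (hc h).symm

end Hopf

/-! ### Differential modules -/

section Diff

variable {A B C : Type*} [AddCommGroup A] [AddCommGroup B] [AddCommGroup C]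
  (dA : A →+ A) (dB : B →+ B) (dC : C →+ C) (u : A →+ B) (v : B →+ C)

/-- exactness of a differential -/
def Acyc (dA : A →+ A) : Prop := ∀ a, dA a = 0 → ∃ a', dA a' = a

variable {dA dB dC u v}

lemma acyc_sub (hu : Function.Injective u) (hv : Function.Surjective v)
    (huv : ∀ b, v b = 0 → ∃ a, u a = b) (hvu : ∀ a, v (u a) = 0)
    (cu : ∀ a, u (dA a) = dB (u a)) (cv : ∀ b, v (dB b) = dC (v b))
    (ddB : ∀ b, dB (dB b) = 0) (hC : Acyc dC) (hB : Acyc dB) : Acyc dA := by
  intro β hβ
  obtain ⟨γ, hγ⟩ := hB (u β) (by rw [← cu, hβ, map_zero])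
  obtain ⟨δ, hδ⟩ := hC (v γ) (by rw [← cv, hγ, hvu])
  obtain ⟨δ', rfl⟩ := hv δ
  obtain ⟨γ', hγ'⟩ := huv (γ - dB δ') (by rw [map_sub, cv, hδ, sub_self])
  refine ⟨γ', hu ?_⟩
  rw [cu, hγ', map_sub, ddB, sub_zero, hγ]

lemma acyc_mid (hv : Function.Surjective v) (hu : Function.Injective u)
    (huv : ∀ b, v b = 0 → ∃ a, u a = b)
    (cu : ∀ a, u (dA a) = dB (u a)) (cv : ∀ b, v (dB b) = dC (v b))
    (ddB : ∀ b, dB (dB b) = 0) (hC : Acyc dC) (hA : Acyc dA) : Acyc dB := by
  intro β hβ
  obtain ⟨δ, hδ⟩ := hC (v β) (by rw [← cv, hβ, map_zero])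
  obtain ⟨δ', rfl⟩ := hv δ
  obtain ⟨ε, hε⟩ := huv (β - dB δ') (by rw [map_sub, cv, hδ, sub_self])
  obtain ⟨η, hη⟩ := hA ε (hu (by rw [cu, hε, map_sub, ddB, hβ, sub_self, map_zero]))
  refine ⟨δ' + u η, ?_⟩
  rw [map_add, ← cu, hη, hε]
  abel

lemma acyc_quot (hu : Function.Injective u) (hv : Function.Surjective v)
    (huv : ∀ b, v b = 0 → ∃ a, u a = b) (hvu : ∀ a, v (u a) = 0)
    (cu : ∀ a, u (dA a) = dB (u a)) (cv : ∀ b, v (dB b) = dC (v b))
    (ddB : ∀ b, dB (dB b) = 0) (hB : Acyc dB) (hA : Acyc dA) : Acyc dC := by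
  intro β hβ
  obtain ⟨β', rfl⟩ := hv β
  obtain ⟨ε, hε⟩ := huv (dB β') (by rw [cv, hβ])
  obtain ⟨η, hη⟩ := hA ε (hu (by rw [cu, hε, ddB, map_zero]))
  obtain ⟨θ, hθ⟩ := hB (β' - u η) (by rw [map_sub, ← cu, hη, hε, sub_self])
  refine ⟨v θ, ?_⟩
  rw [← cv, hθ, map_sub, hvu, sub_zero]

end Diff

/-! ### The test functor -/

section Test

variable (k : Type u) [Field k]

/-- The element `x = e ⊗ 1`. -/
noncomputable def xx : DD k := e k ⊗ₜ 1

/-- The element `y = 1 ⊗ e`. -/
noncomputable def yy : DD k := 1 ⊗ₜ e k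

lemma xx_sq : xx k * xx k = 0 := by
  simp [xx, e_mul_e]

lemma yy_sq : yy k * yy k = 0 := by
  simp [yy, e_mul_e]

variable (X : Type u) [AddCommGroup X] [Module (DD k) X] [Module k X]
  [IsScalarTower k (DD k) X]

/-- The differential `β ↦ t β(x·) + β(y·)` on `Hom_k(X, k(t))`. -/
noncomputable def Phi : (X →ₗ[k] RatFunc k) →ₗ[RatFunc k] (X →ₗ[k] RatFunc k) where
  toFun β := (RatFunc.X : RatFunc k) • (β ∘ₗ Algebra.lsmul k k X (xx k)) +
    β ∘ₗ Algebra.lsmul k k X (yy k)
  map_add' β γ := by
    ext m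
    simp
    ring
  map_smul' c β := by
    ext m
    simp
    ring

variable {k X}

lemma Phi_apply (β : X →ₗ[k] RatFunc k) (m : X) :
    Phi k X β m = RatFunc.X * β (xx k • m) + β (yy k • m) := rfl

lemma Phi_Phi [CharP k 2] (β : X →ₗ[k] RatFunc k) : Phi k X (Phi k X β) = 0 := by
  ext m
  rw [Phi_apply, Phi_apply, Phi_apply, smul_smul, smul_smul, smul_smul, smul_smul, xx_sq, yy_sq,
    zero_smul, map_zero, mul_comm (yy k) (xx k)]
  have : (2 : RatFunc k) = 0 := by
    rw [← map_ofNat (algebraMap k (RatFunc k)) 2, (CharTwo.two_eq_zero : (2 : k) = 0), map_zero]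
  simp only [mul_zero, zero_add, add_zero, LinearMap.zero_apply]
  rw [← two_mul, this, zero_mul]

variable (k X)

/-- The test property. -/
def Ex : Prop := Acyc (Phi k X).toAddMonoidHom

variable {k X}

/-- Key formula. -/
lemma Phi_h (h : X →ₗ[k] X) (hx : ∀ m, xx k • h m + h (xx k • m) = m)
    (β : X →ₗ[k] RatFunc k) (N : X →ₗ[k] X)
    (hN : ∀ m, yy k • h m + h (yy k • m) = N m) :
    Phi k X (β ∘ₗ h) + (Phi k X β) ∘ₗ h = (RatFunc.X : RatFunc k) • β + β ∘ₗ N := by
  ext m
  have hm := congrArg β (hx m)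
  rw [map_add] at hm
  rw [LinearMap.add_apply, LinearMap.comp_apply (Phi k X β) h,
    Phi_apply, Phi_apply, LinearMap.comp_apply, LinearMap.comp_apply, LinearMap.add_apply,
    LinearMap.smul_apply, LinearMap.comp_apply, ← hN m, map_add, smul_eq_mul]
  linear_combination (RatFunc.X : RatFunc k) * hm

/-- No finiteness needed if `h` also commutes with `y`. -/
lemma ex_of_h0 (h : X →ₗ[k] X) (hx : ∀ m, xx k • h m + h (xx k • m) = m)
    (hy : ∀ m, yy k • h m + h (yy k • m) = 0) : Ex k X := by
  intro β hβ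
  have hβ' : Phi k X β = 0 := hβ
  refine ⟨(RatFunc.X : RatFunc k)⁻¹ • (β ∘ₗ h), ?_⟩
  change Phi k X _ = β
  have := Phi_h h hx β 0 (fun m => by rw [hy m]; rfl)
  rw [hβ', LinearMap.zero_comp, add_zero, LinearMap.comp_zero, add_zero] at this
  rw [map_smul, this, smul_smul, inv_mul_cancel₀ RatFunc.X_ne_zero, one_smul]

/-- The transcendence argument. -/
lemma ex_of_h [Module.Finite k X] (h : X →ₗ[k] X)
    (hx : ∀ m, xx k • h m + h (xx k • m) = m) [CharP k 2] : Ex k X := by
  let N : X →ₗ[k] X := Algebra.lsmul k k X (yy k) ∘ₗ h + h ∘ₗ Algebra.lsmul k k X (yy k)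
  have hN : ∀ m, yy k • h m + h (yy k • m) = N m := fun m => rfl
  let T : (X →ₗ[k] RatFunc k) →ₗ[RatFunc k] (X →ₗ[k] RatFunc k) :=
    { toFun := fun β => (RatFunc.X : RatFunc k) • β + β ∘ₗ N
      map_add' := fun β γ => by
        ext m
        simp
        ring
      map_smul' := fun c β => by
        ext m
        simp
        ring }
  have hT : ∀ β, T β = (RatFunc.X : RatFunc k) • β + β ∘ₗ N := fun β => rfl
  have h22 : (2 : RatFunc k) = 0 := by
    rw [← map_ofNat (algebraMap k (RatFunc k)) 2, (CharTwo.two_eq_zero : (2 : k) = 0), map_zero]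
  have hinj : Function.Injective T := by
    rw [injective_iff_map_eq_zero]
    intro β hβ
    rw [hT] at hβ
    have h1 : ∀ m, β (N m) = (RatFunc.X : RatFunc k) * β m := by
      intro m
      have := DFunLike.congr_fun hβ m
      simp only [LinearMap.add_apply, LinearMap.smul_apply, smul_eq_mul, LinearMap.comp_apply,
        LinearMap.zero_apply] at this
      linear_combination this - (RatFunc.X : RatFunc k) * β m * h22
    have h2 : ∀ (p : Polynomial k) (m : X), β ((Polynomial.aeval N p) m) =
        Polynomial.aeval (RatFunc.X : RatFunc k) p * β m := by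
      intro p
      induction p using Polynomial.induction_on' with
      | add p q hp hq =>
        intro m
        rw [map_add, map_add, LinearMap.add_apply, map_add, hp, hq, add_mul]
      | monomial n a =>
        intro m
        rw [Polynomial.aeval_monomial, Polynomial.aeval_monomial]
        induction n generalizing m with
        | zero =>
          rw [pow_zero, pow_zero, mul_one, mul_one, Module.algebraMap_end_apply, map_smul,
            Algebra.smul_def]
        | succ n ih =>
          rw [pow_succ, pow_succ, ← mul_assoc, ← mul_assoc, Module.End.mul_apply, ih (N m), h1]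
          ring
    have h3 := h2 (minpoly k N)
    ext m
    have h4 := h3 m
    rw [minpoly.aeval, LinearMap.zero_apply, map_zero] at h4
    rcases mul_eq_zero.1 h4.symm with h5 | h5
    · exfalso
      rw [RatFunc.aeval_X_left_eq_algebraMap] at h5
      have h6 : minpoly k N = 0 := by
        apply IsFractionRing.injective (Polynomial k) (RatFunc k)
        rw [h5, map_zero]
      exact minpoly.ne_zero (Algebra.IsIntegral.isIntegral N) h6
    · exact h5
  have hsurj : Function.Surjective T := LinearMap.injective_iff_surjective.1 hinj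
  have hkey : ∀ β, Phi k X (β ∘ₗ h) + (Phi k X β) ∘ₗ h = T β := fun β => Phi_h h hx β N hN
  have hcomm : ∀ β, Phi k X (T β) = T (Phi k X β) := by
    intro β
    rw [← hkey, ← hkey, map_add, Phi_Phi, Phi_Phi, LinearMap.zero_comp, zero_add, add_zero]
  intro β hβ
  have hβ' : Phi k X β = 0 := hβ
  obtain ⟨γ, hγ⟩ := hsurj β
  have hγ0 : Phi k X γ = 0 := by
    apply hinj
    rw [← hcomm, hγ, hβ', map_zero]
  refine ⟨γ ∘ₗ h, ?_⟩
  change Phi k X _ = β
  have := hkey γ
  rw [hγ0, LinearMap.zero_comp, add_zero] at this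
  rw [this, hγ]

lemma Phi_comp {Y : Type u} [AddCommGroup Y] [Module (DD k) Y] [Module k Y]
    [IsScalarTower k (DD k) Y] (f : X →ₗ[DD k] Y) (β : Y →ₗ[k] RatFunc k) :
    Phi k X (β ∘ₗ f.restrictScalars k) = (Phi k Y β) ∘ₗ f.restrictScalars k := by
  ext m
  simp [Phi_apply]

section Ses

variable {Y W : Type u} [AddCommGroup Y] [Module (DD k) Y] [Module k Y]
  [IsScalarTower k (DD k) Y] [AddCommGroup W] [Module (DD k) W] [Module k W]
  [IsScalarTower k (DD k) W] (f : X →ₗ[DD k] Y) (g : Y →ₗ[DD k] W)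

/-- precomposition -/
noncomputable def pre : (Y →ₗ[k] RatFunc k) →+ (X →ₗ[k] RatFunc k) where
  toFun β := β ∘ₗ f.restrictScalars k
  map_zero' := LinearMap.zero_comp _
  map_add' _ _ := LinearMap.add_comp _ _ _

lemma pre_inj (hf : Function.Surjective f) : Function.Injective (pre (k := k) f) := by
  intro β γ h
  ext m
  obtain ⟨m', rfl⟩ := hf m
  exact DFunLike.congr_fun h m'

lemma pre_surj (hf : Function.Injective f) : Function.Surjective (pre (k := k) f) := by
  intro β
  obtain ⟨r, hr⟩ := LinearMap.exists_leftInverse_of_injective (f.restrictScalars k)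
    (LinearMap.ker_eq_bot.2 hf)
  refine ⟨β ∘ₗ r, ?_⟩
  change (β ∘ₗ r) ∘ₗ f.restrictScalars k = β
  rw [LinearMap.comp_assoc, hr, LinearMap.comp_id]

lemma pre_exact (hg : Function.Surjective g) (hfg : ∀ y, g y = 0 → ∃ x, f x = y)
    (β : Y →ₗ[k] RatFunc k) (hβ : pre (k := k) f β = 0) : ∃ γ, pre (k := k) g γ = β := by
  obtain ⟨r, hr⟩ := LinearMap.exists_rightInverse_of_surjective (g.restrictScalars k)
    (LinearMap.range_eq_top.2 hg)
  refine ⟨β ∘ₗ r, ?_⟩
  ext y
  change β (r (g y)) = β y
  obtain ⟨x, hx⟩ := hfg (y - r (g y)) (by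
    rw [map_sub]
    have := DFunLike.congr_fun hr (g y)
    change g (r (g y)) = g y at this
    rw [this, sub_self])
  have h1 : β (f x) = 0 := DFunLike.congr_fun hβ x
  rw [hx, map_sub] at h1
  linear_combination (-1 : RatFunc k) * h1

variable [CharP k 2]

lemma ex_third (hf : Function.Injective f) (hg : Function.Surjective g)
    (hfg : ∀ y, g y = 0 → ∃ x, f x = y) (hgf : ∀ x, g (f x) = 0) (h1 : Ex k X) (h2 : Ex k Y) :
    Ex k W :=
  acyc_sub (dA := (Phi k W).toAddMonoidHom)
    (dB := (Phi k Y).toAddMonoidHom) (dC := (Phi k X).toAddMonoidHom) (u := pre (k := k) g) (v := pre (k := k) f) (pre_inj g hg) (pre_surj f hf)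
    (pre_exact f g hg hfg) (fun β => by
      ext x
      change β (g (f x)) = 0
      rw [hgf, map_zero]) (fun β => (Phi_comp g β).symm) (fun β => (Phi_comp f β).symm)
    (Phi_Phi) h1 h2

lemma ex_second (hf : Function.Injective f) (hg : Function.Surjective g)
    (hfg : ∀ y, g y = 0 → ∃ x, f x = y) (h1 : Ex k X) (h2 : Ex k W) :
    Ex k Y :=
  acyc_mid (dA := (Phi k W).toAddMonoidHom)
    (dB := (Phi k Y).toAddMonoidHom) (dC := (Phi k X).toAddMonoidHom) (u := pre (k := k) g) (v := pre (k := k) f) (pre_surj f hf) (pre_inj g hg)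
    (pre_exact f g hg hfg) (fun β => (Phi_comp g β).symm) (fun β => (Phi_comp f β).symm)
    (Phi_Phi) h1 h2

lemma ex_first (hf : Function.Injective f) (hg : Function.Surjective g)
    (hfg : ∀ y, g y = 0 → ∃ x, f x = y) (hgf : ∀ x, g (f x) = 0) (h1 : Ex k Y) (h2 : Ex k W) :
    Ex k X :=
  acyc_quot (dA := (Phi k W).toAddMonoidHom)
    (dB := (Phi k Y).toAddMonoidHom) (dC := (Phi k X).toAddMonoidHom) (u := pre (k := k) g) (v := pre (k := k) f) (pre_inj g hg) (pre_surj f hf)
    (pre_exact f g hg hfg) (fun β => by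
      ext x
      change β (g (f x)) = 0
      rw [hgf, map_zero]) (fun β => (Phi_comp g β).symm) (fun β => (Phi_comp f β).symm)
    (Phi_Phi) h1 h2

end Ses

lemma ex_directSum {ι : Type u} {X : ι → Type u} [∀ a, AddCommGroup (X a)]
    [∀ a, Module (DD k) (X a)] [∀ a, Module k (X a)] [∀ a, IsScalarTower k (DD k) (X a)]
    {Y : Type u} [AddCommGroup Y] [Module (DD k) Y] [Module k Y]
    [IsScalarTower k (DD k) Y] (eY : Y ≃ₗ[DD k] ⨁ a, X a) (h : ∀ a, Ex k (X a)) : Ex k Y := by
  classical
  intro β hβ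
  have hβ' : Phi k Y β = 0 := hβ
  let inc : ∀ a, X a →ₗ[DD k] Y := fun a => eY.symm.toLinearMap ∘ₗ DirectSum.lof (DD k) ι X a
  have h1 : ∀ a, ∃ γ : X a →ₗ[k] RatFunc k, Phi k (X a) γ = β ∘ₗ (inc a).restrictScalars k := by
    intro a
    exact h a _ ((Phi_comp (inc a) β).trans (by rw [hβ', LinearMap.zero_comp]))
  choose γ hγ using h1
  let G : Y →ₗ[k] RatFunc k :=
    (DirectSum.toModule k ι (RatFunc k) γ) ∘ₗ (eY.toLinearMap.restrictScalars k)
  refine ⟨G, ?_⟩
  change Phi k Y G = β
  have hG : ∀ a, G ∘ₗ (inc a).restrictScalars k = γ a := by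
    intro a
    ext m
    change (DirectSum.toModule k ι (RatFunc k) γ) (eY (eY.symm (DirectSum.lof (DD k) ι X a m))) = _
    rw [LinearEquiv.apply_symm_apply]
    exact DirectSum.toModule_lof k a m
  ext y
  obtain ⟨z, rfl⟩ := eY.symm.surjective y
  induction z using DirectSum.induction_on with
  | zero => simp
  | of a m =>
    have h3 : Phi k Y G ∘ₗ (inc a).restrictScalars k = β ∘ₗ (inc a).restrictScalars k := by
      rw [← Phi_comp, hG, hγ]
    exact DFunLike.congr_fun h3 m
  | add p q hp hq => rw [map_add, map_add, map_add, hp, hq]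

end Test

/-! ### Homotopies on projective modules -/

section Proj

variable {k : Type u} [Field k]

lemma exists_h {R : Type u} [CommRing R] [Algebra k R] {P : Type u} [AddCommGroup P] [Module R P]
    [Module k P] [IsScalarTower k R P] [Module.Projective R P] (hR : R →ₗ[k] R) :
    ∃ h : P →ₗ[k] P, ∀ r c : R, (∀ a : R, r * hR a + hR (r * a) = c * a) →
      ∀ m, r • h m + h (r • m) = c • m := by
  obtain ⟨s, hs⟩ := Module.projective_def.1 (inferInstance : Module.Projective R P)
  let hF : (P →₀ R) →ₗ[k] (P →₀ R) := Finsupp.mapRange.linearMap hR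
  let π : (P →₀ R) →ₗ[R] P := Finsupp.linearCombination R id
  refine ⟨π.restrictScalars k ∘ₗ hF ∘ₗ s.restrictScalars k, ?_⟩
  intro r c hrc m
  have h1 : ∀ z : P →₀ R, r • hF z + hF (r • z) = c • z := by
    intro z
    ext p
    simp only [hF, Finsupp.mapRange.linearMap_apply, Finsupp.add_apply, Finsupp.smul_apply,
      Finsupp.mapRange_apply, smul_eq_mul]
    exact hrc (z p)
  have h2 : π (s m) = m := hs m
  change r • π (hF (s m)) + π (hF (s (r • m))) = c • m
  rw [map_smul s, ← map_smul π, ← map_add π, h1, map_smul, h2]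

variable (k) in
/-- Division by `e`. -/
noncomputable def hH : HH k →ₗ[k] HH k := LinearMap.toSpanSingleton k (HH k) 1 ∘ₗ c1

lemma hH_spec (a : HH k) : e k * hH k a + hH k (e k * a) = 1 * a := by
  have h1 : hH k a = c1 a • 1 := rfl
  have h2 : hH k (e k * a) = c1 (e k * a) • 1 := rfl
  have h3 : e k * a = c0 a • e k := by
    conv_lhs => rw [repr_eq' a]
    rw [mul_add, mul_smul_comm, e_mul_e, smul_zero, add_zero, Algebra.algebraMap_eq_smul_one,
      mul_smul_comm, mul_one]
  rw [h1, h2, h3, map_smul, c1_e, one_mul, smul_eq_mul, mul_one, mul_smul_comm, mul_one]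
  conv_rhs => rw [repr_eq' a, Algebra.algebraMap_eq_smul_one]
  rw [add_comm]

variable (k) in
/-- Division by `x`. -/
noncomputable def hD : DD k →ₗ[k] DD k := LinearMap.rTensor (HH k) (hH k)

lemma hD_spec_x (a : DD k) : xx k * hD k a + hD k (xx k * a) = 1 * a := by
  induction a using TensorProduct.induction_on with
  | zero => simp
  | tmul a b =>
    simp only [xx, hD, LinearMap.rTensor_tmul, Algebra.TensorProduct.tmul_mul_tmul, one_mul]
    rw [← TensorProduct.add_tmul, hH_spec, one_mul]
  | add a b ha hb =>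
    rw [map_add, mul_add, mul_add, map_add, mul_add, ← ha, ← hb]
    abel

lemma hD_spec_y [CharP k 2] (a : DD k) : yy k * hD k a + hD k (yy k * a) = 0 * a := by
  induction a using TensorProduct.induction_on with
  | zero => simp
  | tmul a b =>
    simp only [yy, hD, LinearMap.rTensor_tmul, Algebra.TensorProduct.tmul_mul_tmul, one_mul,
      zero_mul]
    rw [← two_smul k, (CharTwo.two_eq_zero : (2 : k) = 0), zero_smul]
  | add a b ha hb =>
    rw [map_add, mul_add, mul_add, map_add, mul_add, ← ha, ← hb]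
    abel

end Proj

/-! ### The localizing class -/

section Class

variable (k : Type u) [Field k]

/-- The underlying `k`-structure. -/
@[reducible] noncomputable def kmod (X : Type u) [AddCommGroup X] [Module (DD k) X] :
    Module k X := Module.compHom X (algebraMap k (DD k))

lemma kmod_tower (X : Type u) [AddCommGroup X] [Module (DD k) X] :
    @IsScalarTower k (DD k) X _ _ (kmod k X).toSMul :=
  letI := kmod k X
  ⟨fun a b m => by rw [Algebra.smul_def, mul_smul]; rfl⟩

/-- The test class. -/
def ExC (X : ModuleCat.{u} (DD k)) : Prop :=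
  letI := kmod k X
  haveI := kmod_tower k X
  Ex k X

variable [CharP k 2]

theorem exC_localizing : IsLocalizing (ExC k) where
  projective P hP := by
    let := kmod k P
    have := kmod_tower k P
    obtain ⟨h, hh⟩ := exists_h (k := k) (R := DD k) (P := P) (hD k)
    exact ex_of_h0 h (fun m => by rw [hh _ 1 hD_spec_x, one_smul])
      (fun m => by rw [hh _ 0 hD_spec_y, zero_smul])
  directSum ι X hX := by
    let := fun a => kmod k (X a)
    have := fun a => kmod_tower k (X a)
    let := kmod k (ModuleCat.of (DD k) (⨁ a, X a))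
    have := kmod_tower k (ModuleCat.of (DD k) (⨁ a, X a))
    exact ex_directSum (X := fun a => X a) (Y := ModuleCat.of (DD k) (⨁ a, X a))
      (LinearEquiv.refl _ _) hX
  third S hS h1 h2 := by
    let := kmod k S.X₁
    have := kmod_tower k S.X₁
    let := kmod k S.X₂
    have := kmod_tower k S.X₂
    let := kmod k S.X₃
    have := kmod_tower k S.X₃
    exact ex_third S.f.hom S.g.hom hS.moduleCat_injective_f hS.moduleCat_surjective_g
      ((ShortComplex.moduleCat_exact_iff S).1 hS.exact) (fun x => S.moduleCat_zero_apply x) h1 h2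
  second S hS h1 h3 := by
    let := kmod k S.X₁
    have := kmod_tower k S.X₁
    let := kmod k S.X₂
    have := kmod_tower k S.X₂
    let := kmod k S.X₃
    have := kmod_tower k S.X₃
    exact ex_second S.f.hom S.g.hom hS.moduleCat_injective_f hS.moduleCat_surjective_g
      ((ShortComplex.moduleCat_exact_iff S).1 hS.exact) h1 h3
  first S hS h2 h3 := by
    let := kmod k S.X₁
    have := kmod_tower k S.X₁
    let := kmod k S.X₂
    have := kmod_tower k S.X₂
    let := kmod k S.X₃
    have := kmod_tower k S.X₃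
    exact ex_first S.f.hom S.g.hom hS.moduleCat_injective_f hS.moduleCat_surjective_g
      ((ShortComplex.moduleCat_exact_iff S).1 hS.exact) (fun x => S.moduleCat_zero_apply x) h2 h3

/-- Finite-dimensional objects of the kernel lie in the test class. -/
theorem exC_of_finDim (Y : ModuleCat.{u} (DD k)) (h1 : InKernel (ii k) Y) (h2 : IsFinDim k Y) :
    ExC k Y := by
  let := kmod k Y
  have := kmod_tower k Y
  have hfin : Module.Finite k Y := h2
  let YH := (ModuleCat.restrictScalars ((ii k : HH k →ₐ[k] DD k) : HH k →+* DD k)).obj Y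
  have hproj : Module.Projective (HH k) YH := h1
  let : Module k YH := kmod k Y
  have htower : IsScalarTower k (HH k) YH := ⟨fun a b m => by
    change (ii k (a • b)) • (show Y from m) =
      algebraMap k (DD k) a • (ii k b • (show Y from m))
    rw [map_smul, Algebra.smul_def, mul_smul]⟩
  obtain ⟨h, hh⟩ := exists_h (k := k) (R := HH k) (P := YH) (hH k)
  let h' : Y →ₗ[k] Y := h
  exact ex_of_h h' (fun m => (hh _ 1 hH_spec m).trans (one_smul _ _))

/-! ### The generic module -/

/-- `k[e]/(e²) ⊗ k(t)`. -/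
abbrev ZZ : Type u := HH k ⊗[k] RatFunc k

/-- `x ↦ e ⊗ 1`, `y ↦ e ⊗ t`. -/
noncomputable def th : DD k →ₐ[k] ZZ k :=
  Algebra.TensorProduct.lift (Algebra.TensorProduct.includeLeft : HH k →ₐ[k] ZZ k)
    (lft (e k ⊗ₜ RatFunc.X) (by simp [e_mul_e])) (fun _ _ => Commute.all _ _)

/-- The generic module. -/
noncomputable def Z : ModuleCat.{u} (DD k) :=
  (ModuleCat.restrictScalars (th k : DD k →+* ZZ k)).obj (ModuleCat.of (ZZ k) (ZZ k))

omit [CharP k 2] in
lemma th_ii (h : HH k) : th k (ii k h) = h ⊗ₜ 1 := by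
  simp [th, ii]

omit [CharP k 2] in
lemma th_xx : th k (xx k) = e k ⊗ₜ 1 := by
  simp [th, xx]

omit [CharP k 2] in
lemma th_yy : th k (yy k) = e k ⊗ₜ RatFunc.X := by
  simp [th, yy, lft_e]

omit [CharP k 2] in
theorem Z_inKernel : InKernel (ii k) (Z k) := by
  have hproj : Module.Projective (HH k) (ZZ k) := inferInstance
  let eq : ZZ k ≃ₗ[HH k]
      (ModuleCat.restrictScalars ((ii k : HH k →ₐ[k] DD k) : HH k →+* DD k)).obj (Z k) :=
    { toFun := fun z => z
      invFun := fun z => z
      map_add' := fun _ _ => rfl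
      map_smul' := fun h z => by
        change h • z = th k (ii k h) * z
        rw [th_ii, Algebra.smul_def]
        rfl
      left_inv := fun _ => rfl
      right_inv := fun _ => rfl }
  exact Module.Projective.of_equiv eq

theorem Z_not_exC : ¬ ExC k (Z k) := by
  let := kmod k (Z k)
  have := kmod_tower k (Z k)
  intro hE
  have hE' : Ex k (Z k) := hE
  let β0 : ZZ k →ₗ[k] RatFunc k :=
    (TensorProduct.lid k (RatFunc k)).toLinearMap ∘ₗ LinearMap.rTensor (RatFunc k) c1
  have hβ0 : ∀ (a : HH k) (b : RatFunc k), β0 (a ⊗ₜ b) = c1 a • b := fun a b => by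
    simp [β0]
  have hs : ∀ (a : k) (z : ZZ k), β0 (th k (algebraMap k (DD k) a) * z) = a • β0 z := by
    intro a z
    rw [AlgHom.commutes, ← Algebra.smul_def, map_smul]
  let β : Z k →ₗ[k] RatFunc k :=
    { toFun := fun z => β0 z
      map_add' := fun z w => map_add β0 _ _
      map_smul' := fun a z => hs a z }
  have hX : ∀ z : ZZ k, RatFunc.X * β0 ((e k ⊗ₜ 1) * z) + β0 ((e k ⊗ₜ RatFunc.X) * z) = 0 := by
    intro z
    induction z using TensorProduct.induction_on with
    | zero => simp
    | tmul a b =>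
      rw [Algebra.TensorProduct.tmul_mul_tmul, Algebra.TensorProduct.tmul_mul_tmul, hβ0, hβ0,
        one_mul, mul_smul_comm, ← two_smul k, (CharTwo.two_eq_zero : (2 : k) = 0), zero_smul]
    | add a b ha hb =>
      rw [mul_add, mul_add, map_add, map_add]
      linear_combination ha + hb
  have hX' : ∀ z : ZZ k, RatFunc.X * β0 (th k (xx k) * z) + β0 (th k (yy k) * z) = 0 := by
    intro z
    rw [th_xx, th_yy]
    exact hX z
  have hβ : Phi k (Z k) β = 0 := LinearMap.ext fun z => hX' z
  obtain ⟨γ, hγ⟩ := hE' β hβ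
  have hγ' : Phi k (Z k) γ = β := hγ
  let z0 : ZZ k := e k ⊗ₜ 1
  let z1 : Z k := z0
  have h1 : RatFunc.X * γ (xx k • z1) + γ (yy k • z1) = β0 z0 := DFunLike.congr_fun hγ' z1
  have hx0 : xx k • z1 = 0 := by
    change th k (xx k) * z0 = 0
    rw [th_xx, Algebra.TensorProduct.tmul_mul_tmul, e_mul_e, TensorProduct.zero_tmul]
  have hy0 : yy k • z1 = 0 := by
    change th k (yy k) * z0 = 0
    rw [th_yy, Algebra.TensorProduct.tmul_mul_tmul, e_mul_e, TensorProduct.zero_tmul]
  rw [hx0, hy0, map_zero, mul_zero, zero_add, hβ0, c1_e, one_smul] at h1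
  exact zero_ne_one h1

end Class

/-- **Main theorem.** -/
theorem result (k : Type u) [Field k] [CharP k 2] :
    ∃ (H : Type u) (_ : Ring H) (_ : HopfAlgebra k H) (_ : FiniteDimensional k H)
      (D : Type u) (_ : Ring D) (_ : Algebra k D) (i : H →ₐ[k] D)
      (j : Module.Dual k H →ₗ[k] D),
      IsDrinfeldDouble k H D i j ∧ ¬ KernelCompactlyGenerated i := by
  refine ⟨HH k, inferInstance, hopf k, inferInstanceAs (Module.Finite k (HH k)), DD k,
    inferInstance, inferInstance, ii k, jj k, isDD k, fun hcg => ?_⟩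
  exact Z_not_exC k (((hcg (Z k)).1 (Z_inKernel k)) (ExC k) (exC_localizing k)
    (fun Y hY => exC_of_finDim k Y hY.1 hY.2))

end Pool.Agent.Results.MP_ae772b_al.KernelNotCompGen
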